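import Mathlib
import Pool.Agent.W751.CV.Stm

/-!
# Moments of the disc

The integral of `‖x‖ ^ (2 k)` over the disc of radius `ρ` is `hk ρ k`.
-/

set_option autoImplicit false

open Polynomial Filter Topology MeasureTheory

namespace Pool.Agent.W778.CV

open Pool.Agent.W751.CD Pool.Agent.W751.CV

lemma int_disc {ρ : ℝ} (hρ : 0 < ρ) (k : ℕ) :
    ∫ x, ‖x‖ ^ (2 * k) ∂(mD ρ) = hk ρ k := by
  unfold mD hk
  rw [← integral_indicator Metric.isClosed_closedBall.measurableSet]
  have h1 : (fun x : ℂ => (Metric.closedBall (0 : ℂ) ρ).indicator (fun x => ‖x‖ ^ (2 * k)) x) =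
      fun x : ℂ => (fun y : ℝ => (Set.Iic ρ).indicator (fun y => y ^ (2 * k)) y) ‖x‖ := by
    funext x
    change _ = (Set.Iic ρ).indicator (fun y => y ^ (2 * k)) ‖x‖
    by_cases hx : ‖x‖ ≤ ρ
    · have e1 : x ∈ Metric.closedBall (0 : ℂ) ρ := by simpa using hx
      have e2 : ‖x‖ ∈ Set.Iic ρ := hx
      rw [Set.indicator_of_mem e1, Set.indicator_of_mem e2]
    · have e1 : x ∉ Metric.closedBall (0 : ℂ) ρ := by simpa using hx
      have e2 : ‖x‖ ∉ Set.Iic ρ := hx
      rw [Set.indicator_of_notMem e1, Set.indicator_of_notMem e2]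
  have h2 := integral_fun_norm_addHaar (volume : Measure ℂ)
    (fun y : ℝ => (Set.Iic ρ).indicator (fun y => y ^ (2 * k)) y)
  have h1' : (∫ x : ℂ, (Metric.closedBall (0 : ℂ) ρ).indicator (fun x => ‖x‖ ^ (2 * k)) x) =
      ∫ x : ℂ, (fun y : ℝ => (Set.Iic ρ).indicator (fun y => y ^ (2 * k)) y) ‖x‖ := by
    rw [← h1]
  rw [h1', h2, Complex.finrank_real_complex]
  have h3 : ((volume : Measure ℂ) (Metric.ball 0 1)).toReal = Real.pi := by
    rw [Complex.volume_ball]
    simp
  have h4 : (volume : Measure ℂ).real (Metric.ball 0 1) = Real.pi := h3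
  rw [h4]
  have h5 : ∫ y in Set.Ioi (0 : ℝ), y ^ (2 - 1) • (Set.Iic ρ).indicator (fun y => y ^ (2 * k)) y =
      ρ ^ (2 * k + 2) / (2 * k + 2) := by
    have h6 : (fun y : ℝ => y ^ (2 - 1) • (Set.Iic ρ).indicator (fun y => y ^ (2 * k)) y) =
        (Set.Iic ρ).indicator (fun y => y ^ (2 * k + 1)) := by
      funext y
      by_cases hy : y ∈ Set.Iic ρ
      · rw [Set.indicator_of_mem hy, Set.indicator_of_mem hy, smul_eq_mul]
        ring
      · rw [Set.indicator_of_notMem hy, Set.indicator_of_notMem hy, smul_zero]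
    rw [h6, setIntegral_indicator measurableSet_Iic]
    have h7 : Set.Ioi (0 : ℝ) ∩ Set.Iic ρ = Set.Ioc 0 ρ := by
      ext y
      simp
    rw [h7, ← intervalIntegral.integral_of_le hρ.le, integral_pow]
    push_cast
    rw [zero_pow (by omega), sub_zero]
    congr 1
    ring
  rw [h5]
  simp only [nsmul_eq_mul, smul_eq_mul]
  have : (2 * (k : ℝ) + 2) ≠ 0 := by positivity
  have : ((k : ℝ) + 1) ≠ 0 := by positivity
  push_cast
  field_simp

lemma isFin (ρ : ℝ) : IsFiniteMeasure (mD ρ) := by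
  unfold mD
  refine ⟨?_⟩
  rw [Measure.restrict_apply MeasurableSet.univ, Set.univ_inter]
  exact (isCompact_closedBall _ _).measure_lt_top

lemma ae_mD (ρ : ℝ) : ∀ᵐ x ∂(mD ρ), ‖x‖ ≤ ρ := by
  have h := ae_restrict_mem (μ := (volume : Measure ℂ))
    (Metric.isClosed_closedBall (x := (0 : ℂ)) (ε := ρ)).measurableSet
  filter_upwards [h] with x hx
  simpa using hx

lemma lint_disc {ρ : ℝ} (hρ : 0 < ρ) (k : ℕ) :
    ∫⁻ x, ENNReal.ofReal (‖x‖ ^ (2 * k)) ∂(mD ρ) = ENNReal.ofReal (hk ρ k) := by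
  have := isFin ρ
  rw [← int_disc hρ k]
  rw [ofReal_integral_eq_lintegral_ofReal]
  · refine Integrable.of_bound (C := ρ ^ (2 * k)) (by fun_prop) ?_
    filter_upwards [ae_mD ρ] with x hx
    rw [Real.norm_of_nonneg (by positivity)]
    exact pow_le_pow_left₀ (norm_nonneg x) hx _
  · exact Eventually.of_forall fun x => by positivity

lemma ae_pi (ρ : ℝ) (N : ℕ) : ∀ᵐ z ∂(Measure.pi fun _ : Fin N => mD ρ), ∀ i, ‖z i‖ ≤ ρ := by
  have h1 : (Measure.pi fun _ : Fin N => mD ρ) =
      (Measure.pi fun _ : Fin N => (volume : Measure ℂ)).restrict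
        (Set.univ.pi fun _ => Metric.closedBall (0 : ℂ) ρ) := by
    rw [Measure.restrict_pi_pi]
    rfl
  rw [h1]
  have h := ae_restrict_mem (μ := Measure.pi fun _ : Fin N => (volume : Measure ℂ))
    (MeasurableSet.univ_pi fun _ : Fin N =>
      (Metric.isClosed_closedBall (x := (0 : ℂ)) (ε := ρ)).measurableSet)
  filter_upwards [h] with z hz i
  have := hz i (Set.mem_univ i)
  simpa using this

lemma ev_P {N : ℕ} (z : Fin N → ℂ) (w : ℂ) : (P z).eval w = ∏ i, (w - z i) := by
  simp [P, eval_prod]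

lemma vd_meas (N : ℕ) : Measurable fun z : Fin N → ℂ => ENNReal.ofReal (vd z) := by
  have : Continuous fun z : Fin N → ℂ => vd z := by
    unfold vd
    refine (Continuous.norm ?_).pow 2
    refine Continuous.matrix_det ?_
    refine continuous_matrix fun i j => ?_
    simp only [Matrix.vandermonde_apply]
    fun_prop
  exact (ENNReal.continuous_ofReal.comp this).measurable

end Pool.Agent.W778.CV
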