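import Mathlib
import Pool.Agent.W751.CV.Stm
import Pool.Agent.W778.CV.Mom

/-!
# Negative moment outside the disc

`S_NEGOUT` of project CV.
-/

set_option autoImplicit false

open Polynomial Filter Topology MeasureTheory

namespace Pool.Agent.W778.CV

open Pool.Agent.W751.CD Pool.Agent.W751.CV

/-- trial polynomials -/
noncomputable def ph (v : ℂ) : ℕ → ℂ[X]
  | 0 => 1
  | k + 1 => (X - C v) * X ^ k

lemma ph_monic (v : ℂ) (k : ℕ) : (ph v k).Monic ∧ (ph v k).natDegree = k := by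
  cases k with
  | zero => exact ⟨monic_one, natDegree_one⟩
  | succ k =>
    refine ⟨(monic_X_sub_C v).mul (monic_X_pow k), ?_⟩
    change ((X - C v) * X ^ k).natDegree = k + 1
    rw [(monic_X_sub_C v).natDegree_mul (monic_X_pow k), natDegree_X_sub_C, natDegree_X_pow]
    ring

lemma ev_ph_succ (v x : ℂ) (k : ℕ) : ‖(ph v (k + 1)).eval x‖ ^ 2 = ‖x - v‖ ^ 2 * ‖x‖ ^ (2 * k) := by
  change ‖((X - C v) * X ^ k).eval x‖ ^ 2 = _
  rw [eval_mul, eval_sub, eval_X, eval_C, eval_pow, eval_X, norm_mul, norm_pow]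
  ring

/-- Reduction of the negative moment to a product. -/
lemma negRed (hG : GRAMc) (hP : S_PIW) {ρ : ℝ} (hρ : 0 < ρ) (m : ℕ) (w v : ℂ)
    (g : ℂ → ENNReal) (hg : Measurable g) (A K : ENNReal) (hA : A ≠ ⊤)
    (h0 : ∫⁻ x, g x ∂(mD ρ) ≤ A)
    (hk1 : ∀ x : ℂ, ‖x‖ ≤ ρ → g x * ENNReal.ofReal (‖x - v‖ ^ 2) ≤ K)
    (S : Set (Fin (m + 1) → ℂ)) (hS : MeasurableSet S)
    (hgw : ∀ z ∈ S, ∀ i, ‖z i‖ ≤ ρ → g (z i) = ENNReal.ofReal ((‖w - z i‖ ^ 2)⁻¹)) :
    ∫⁻ z in S, ENNReal.ofReal ((‖(P z).eval w‖ ^ 2)⁻¹) ∂(mu ρ (m + 1)) ≤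
      ((m + 1).factorial : ENNReal) * ((∏ k ∈ Finset.range m, (K * ENNReal.ofReal (hk ρ k))) * A) := by
  have := isFin ρ
  have hfin : IsFiniteMeasure ((mD ρ).withDensity g) :=
    isFiniteMeasure_withDensity (ne_top_of_le_ne_top hA h0)
  have hsupp : ((mD ρ).withDensity g) (Metric.closedBall (0 : ℂ) ρ)ᶜ = 0 := by
    refine withDensity_absolutelyContinuous _ _ ?_
    have h := ae_mD ρ
    rw [ae_iff] at h
    convert h using 2
    ext x
    simp
  have hGr := hG (m + 1) ((mD ρ).withDensity g) ρ hsupp (ph v) (ph_monic v)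
  rw [hP (m + 1) (mD ρ) g hg hfin (fun z => ENNReal.ofReal (vd z)) (vd_meas _)] at hGr
  calc ∫⁻ z in S, ENNReal.ofReal ((‖(P z).eval w‖ ^ 2)⁻¹) ∂(mu ρ (m + 1))
      = ∫⁻ z, ENNReal.ofReal (vd z) * S.indicator (fun z =>
          ENNReal.ofReal ((‖(P z).eval w‖ ^ 2)⁻¹)) z
          ∂(Measure.pi fun _ : Fin (m + 1) => mD ρ) := by
        rw [← lintegral_indicator hS]
        unfold mu
        rw [lintegral_withDensity_eq_lintegral_mul _ (vd_meas _)]
        · rfl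
        · refine Measurable.indicator ?_ hS
          have : Continuous fun z : Fin (m + 1) → ℂ => ‖(P z).eval w‖ ^ 2 := by
            simp only [ev_P]
            fun_prop
          exact ENNReal.measurable_ofReal.comp this.measurable.inv
    _ ≤ ∫⁻ z, (∏ i, g (z i)) * ENNReal.ofReal (vd z)
          ∂(Measure.pi fun _ : Fin (m + 1) => mD ρ) := by
        refine lintegral_mono_ae ?_
        filter_upwards [ae_pi ρ (m + 1)] with z hz
        rw [mul_comm]
        gcongr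
        by_cases hzS : z ∈ S
        · rw [Set.indicator_of_mem hzS]
          rw [Finset.prod_congr rfl fun i _ => hgw z hzS i (hz i)]
          rw [← ENNReal.ofReal_prod_of_nonneg fun i _ => by positivity]
          rw [ev_P, norm_prod, ← Finset.prod_pow, Finset.prod_inv_distrib]
        · rw [Set.indicator_of_notMem hzS]
          exact zero_le
    _ ≤ _ := hGr
    _ ≤ _ := by
        gcongr
        rw [Finset.prod_range_succ']
        gcongr with k hk'
        · rw [lintegral_withDensity_eq_lintegral_mul _ hg (by fun_prop)]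
          calc ∫⁻ x, (g * fun x => ENNReal.ofReal (‖(ph v (k + 1)).eval x‖ ^ 2)) x ∂(mD ρ)
              ≤ ∫⁻ x, K * ENNReal.ofReal (‖x‖ ^ (2 * k)) ∂(mD ρ) := by
                refine lintegral_mono_ae ?_
                filter_upwards [ae_mD ρ] with x hx
                rw [Pi.mul_apply, ev_ph_succ, ENNReal.ofReal_mul (by positivity), ← mul_assoc]
                gcongr
                exact hk1 x hx
            _ = K * ENNReal.ofReal (hk ρ k) := by
                rw [lintegral_const_mul _ (by fun_prop), lint_disc hρ k]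
        · rw [lintegral_withDensity_eq_lintegral_mul _ hg (by fun_prop)]
          refine le_trans (le_of_eq ?_) h0
          refine lintegral_congr fun x => ?_
          simp [ph]

lemma refl_ineq {ρ : ℝ} (hρ : 0 < ρ) (w x : ℂ) (hw : ρ < ‖w‖) (hx : ‖x‖ ≤ ρ) :
    ‖x - (ρ ^ 2 : ℝ) / (starRingEnd ℂ) w‖ ^ 2 ≤ (ρ / ‖w‖) ^ 2 * ‖w - x‖ ^ 2 := by
  have hwpos : 0 < ‖w‖ := hρ.trans hw
  have hw0 : w ≠ 0 := norm_pos_iff.1 hwpos
  have hcw : (starRingEnd ℂ) w ≠ 0 := (_root_.map_ne_zero _).2 hw0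
  have h1 : x - ((ρ ^ 2 : ℝ) : ℂ) / (starRingEnd ℂ) w =
      (x * (starRingEnd ℂ) w - ((ρ ^ 2 : ℝ) : ℂ)) / (starRingEnd ℂ) w := by
    field_simp
  rw [h1, norm_div, RCLike.norm_conj, div_pow, div_pow, div_mul_eq_mul_div]
  gcongr
  have h2 : ‖x * (starRingEnd ℂ) w - ((ρ ^ 2 : ℝ) : ℂ)‖ ^ 2 - ρ ^ 2 * ‖w - x‖ ^ 2 =
      (‖x‖ ^ 2 - ρ ^ 2) * (‖w‖ ^ 2 - ρ ^ 2) := by
    simp only [← Complex.normSq_eq_norm_sq, Complex.normSq_apply, Complex.sub_re, Complex.sub_im,
      Complex.mul_re, Complex.mul_im, Complex.conj_re, Complex.conj_im, Complex.ofReal_re,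
      Complex.ofReal_im]
    ring
  have h3 : (‖x‖ ^ 2 - ρ ^ 2) * (‖w‖ ^ 2 - ρ ^ 2) ≤ 0 := by
    apply mul_nonpos_of_nonpos_of_nonneg
    · have := pow_le_pow_left₀ (norm_nonneg x) hx 2
      linarith
    · have := pow_le_pow_left₀ hρ.le hw.le 2
      linarith
  linarith

theorem negout : S_NEGOUT := by
  intro hG hP ρ N w hρ hN hw
  obtain ⟨m, rfl⟩ : ∃ m, N = m + 1 := ⟨N - 1, by omega⟩
  have hwpos : 0 < ‖w‖ := hρ.trans hw
  have hd : 0 < ‖w‖ - ρ := sub_pos.2 hw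
  let g : ℂ → ENNReal := (Metric.closedBall (0 : ℂ) ρ).indicator fun x =>
    ENNReal.ofReal ((‖w - x‖ ^ 2)⁻¹)
  have hcl := (Metric.isClosed_closedBall (x := (0 : ℂ)) (ε := ρ)).measurableSet
  have hg : Measurable g := by
    refine Measurable.indicator ?_ hcl
    have : Continuous fun x : ℂ => ‖w - x‖ ^ 2 := by fun_prop
    exact ENNReal.measurable_ofReal.comp this.measurable.inv
  have hlow : ∀ x : ℂ, ‖x‖ ≤ ρ → ‖w‖ - ρ ≤ ‖w - x‖ := fun x hx => by
    have := norm_sub_norm_le w x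
    linarith
  have h0 : ∫⁻ x, g x ∂(mD ρ) ≤ ENNReal.ofReal (Real.pi * ρ ^ 2 / (‖w‖ - ρ) ^ 2) := by
    calc ∫⁻ x, g x ∂(mD ρ)
        ≤ ∫⁻ x, ENNReal.ofReal (((‖w‖ - ρ) ^ 2)⁻¹) * ENNReal.ofReal (‖x‖ ^ (2 * 0)) ∂(mD ρ) := by
          refine lintegral_mono_ae ?_
          filter_upwards [ae_mD ρ] with x hx
          have hx' : x ∈ Metric.closedBall (0 : ℂ) ρ := by simpa using hx
          change (Metric.closedBall (0 : ℂ) ρ).indicator _ x ≤ _
          rw [Set.indicator_of_mem hx', mul_zero, pow_zero, ENNReal.ofReal_one, mul_one]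
          apply ENNReal.ofReal_le_ofReal
          have := hlow x hx
          gcongr
      _ = ENNReal.ofReal (Real.pi * ρ ^ 2 / (‖w‖ - ρ) ^ 2) := by
          rw [lintegral_const_mul _ (by fun_prop), lint_disc hρ 0,
            ← ENNReal.ofReal_mul (by positivity)]
          congr 1
          unfold hk
          push_cast
          field_simp
          ring
  have hk1 : ∀ x : ℂ, ‖x‖ ≤ ρ → g x * ENNReal.ofReal
      (‖x - ((ρ ^ 2 : ℝ) : ℂ) / (starRingEnd ℂ) w‖ ^ 2) ≤ ENNReal.ofReal ((ρ / ‖w‖) ^ 2) := by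
    intro x hx
    have hx' : x ∈ Metric.closedBall (0 : ℂ) ρ := by simpa using hx
    change (Metric.closedBall (0 : ℂ) ρ).indicator _ x * _ ≤ _
    rw [Set.indicator_of_mem hx', ← ENNReal.ofReal_mul (by positivity)]
    apply ENNReal.ofReal_le_ofReal
    have h1 := refl_ineq hρ w x hw hx
    have h2 : 0 < ‖w - x‖ := hd.trans_le (hlow x hx)
    rw [inv_mul_le_iff₀ (by positivity)]
    linarith
  have key := negRed hG hP hρ m w (((ρ ^ 2 : ℝ) : ℂ) / (starRingEnd ℂ) w) g hg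
    (ENNReal.ofReal (Real.pi * ρ ^ 2 / (‖w‖ - ρ) ^ 2)) (ENNReal.ofReal ((ρ / ‖w‖) ^ 2))
    ENNReal.ofReal_ne_top h0 hk1 Set.univ MeasurableSet.univ (by
      intro z _ i hi
      have hx' : z i ∈ Metric.closedBall (0 : ℂ) ρ := by simpa using hi
      change (Metric.closedBall (0 : ℂ) ρ).indicator _ (z i) = _
      rw [Set.indicator_of_mem hx'])
  rw [Measure.restrict_univ] at key
  refine key.trans (le_of_eq ?_)
  have hkpos : ∀ k : ℕ, 0 < hk ρ k := fun k => by unfold hk; positivity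
  rw [show (((m + 1).factorial : ENNReal)) = ENNReal.ofReal ((m + 1).factorial : ℝ) by simp]
  rw [Finset.prod_congr rfl fun k _ => (ENNReal.ofReal_mul (q := hk ρ k)
    (by positivity : (0 : ℝ) ≤ (ρ / ‖w‖) ^ 2)).symm]
  rw [← ENNReal.ofReal_prod_of_nonneg fun k _ => by have := hkpos k; positivity]
  have hprod : 0 ≤ ∏ k ∈ Finset.range m, ((ρ / ‖w‖) ^ 2 * hk ρ k) :=
    Finset.prod_nonneg fun k _ => by have := hkpos k; positivity
  rw [← ENNReal.ofReal_mul hprod, ← ENNReal.ofReal_mul (by positivity)]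
  congr 1
  unfold ZN
  rw [Finset.prod_mul_distrib, Finset.prod_const, Finset.card_range, Finset.prod_range_succ,
    Nat.add_sub_cancel]
  have : hk ρ m = Real.pi * ρ ^ (2 * m + 2) / (m + 1) := rfl
  rw [this, div_pow, div_pow, ← pow_mul, ← pow_mul]
  have hm : ((m : ℝ) + 1) ≠ 0 := by positivity
  have hd' : (‖w‖ - ρ) ≠ 0 := hd.ne'
  have hw' : ‖w‖ ≠ 0 := hwpos.ne'
  push_cast
  field_simp
  ring

end Pool.Agent.W778.CV
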